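import Mathlib

/-!
MP_fb2c2a_nt, Q1 (negated form): one of the congruences of (c) fails for `p = 5`.
-/

namespace Pool.Agent.Results.MP_fb2c2a_nt.FailsAtFive

open Finset

/-- `D_n(x) = ∑_{k ≤ n} C(n,k) C(n+k,k) x^k`. -/
def D (n : ℕ) (x : ℚ) : ℚ :=
  ∑ k ∈ range (n + 1), (n.choose k : ℚ) * ((n + k).choose k : ℚ) * x ^ k

/-- `a ≡ b (mod p^2)` in `ℤ_(p)`: `a - b = p^2 w` with `w` of denominator prime to `p`. -/
def CongSq (p : ℕ) (a b : ℚ) : Prop :=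
  ∃ w : ℚ, ¬ (p ∣ w.den) ∧ a - b = (p : ℚ) ^ 2 * w

/-- Left side of (c): `∑_{k<p} D_k(3)^3`. -/
def lhsC (p : ℕ) : ℚ := ∑ k ∈ range p, D k 3 ^ 3

/-- Middle term of (c), without its Legendre symbol: `∑_{k<p} (-1)^k D_k(-1/16)^3`. -/
def rhsC (p : ℕ) : ℚ := ∑ k ∈ range p, (-1) ^ k * D k (-1 / 16) ^ 3

/-- There is a prime `p > 3` (namely `p = 5`) for which the congruence
`∑ D_k(3)^3 ≡ (-5/p) ∑ (-1)^k D_k(-1/16)^3 (mod p^2)` of (c) fails. -/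
theorem result : ∃ (p : ℕ) (_ : Fact p.Prime), 3 < p ∧
    ¬ CongSq p (lhsC p) ((legendreSym p (-5) : ℚ) * rhsC p) := by
  refine ⟨5, ⟨by norm_num⟩, by norm_num, ?_⟩
  have hz : ((-5 : ℤ) : ZMod 5) = 0 := by decide
  have hl : ∀ h : Fact (Nat.Prime 5), @legendreSym 5 h (-5) = 0 := by
    intro h
    rw [legendreSym.eq_zero_iff]
    exact hz
  rw [hl]
  rintro ⟨w, hw, h⟩
  have h' : w = (lhsC 5 - ((0 : ℤ) : ℚ) * rhsC 5) / ((5 : ℕ) : ℚ) ^ 2 := by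
    rw [h]; norm_num
  apply hw
  rw [h']
  decide +kernel

end Pool.Agent.Results.MP_fb2c2a_nt.FailsAtFive
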